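import Pool.Agent.Helper43.RK.StI

/-!
# Project RK (MP_b3ce06_al), module IYW: the triangles Y and W
-/

set_option autoImplicit false

namespace Pool.Agent.Helper45.RK

open Pool.Agent.Helper43.RK

/-- module IYW -/
theorem hIYW : StIYW := by
  intro hITH hIRU hISC Λ _ G _ k P r h0
  have h1 := hITH hIRU hISC Λ G k P _ _ _ _ h0
  have hu1 : P.up (k - 1) * P.up (1 - k) = 1 := by
    rw [← P.up_add, show k - 1 + (1 - k) = 0 by ring, P.up_zero]
  have e1 : (-1 - P.up (k - 1) * r) * P.up (-((k - 1) * 1)) = -(r + P.up (1 - k)) := by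
    rw [show -((k - 1) * 1) = 1 - k by ring]
    linear_combination (-r) * hu1
  have e2 : P.N * (-1) = -P.N := by ring
  have e3 : -(P.N * (P.up (k - 1) * r) * P.up ((k - 1) * (k - 1))) =
      -(P.N * r * P.up (k * (k - 1))) := by
    rw [show k * (k - 1) = (k - 1) + (k - 1) * (k - 1) by ring, P.up_add]
    ring
  have e4 : k * (1 + 1) = 2 * k := by ring
  rw [e1, e2, e3, e4] at h1
  refine ⟨h1, ?_⟩
  have h2 := hITH hIRU hISC Λ G k P _ _ _ _ h1
  have f1 : (-(r + P.up (1 - k)) - -(P.N * r * P.up (k * (k - 1)))) *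
      P.up (-((k - 1) * (2 * k))) =
      (-(r + P.up (1 - k)) + P.N * r * P.up (k * (k - 1))) * P.up (-(2 * k * (k - 1))) := by
    rw [show -((k - 1) * (2 * k)) = -(2 * k * (k - 1)) by ring]
    ring
  have f2 : P.N * -(r + P.up (1 - k)) = -(P.N * (r + P.up (1 - k))) := by ring
  have hu2 : P.up (k * (k - 1)) * P.up ((k - 1) * (k - 2 * k)) = 1 := by
    rw [← P.up_add, show k * (k - 1) + (k - 1) * (k - 2 * k) = 0 by ring, P.up_zero]
  have f3 : -(P.N * -(P.N * r * P.up (k * (k - 1))) * P.up ((k - 1) * (k - 2 * k))) =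
      P.N * P.N * r := by
    linear_combination (P.N * P.N * r) * hu2
  have f4 : k * (1 + 2 * k) = k * (2 * k + 1) := by ring
  rw [f1, f2, f3, f4] at h2
  exact h2

end Pool.Agent.Helper45.RK
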